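import Mathlib

set_option autoImplicit false
open Finset Function

namespace Pool.Agent.Q265.FC

section
variable {α β : Type*} [Fintype α] [DecidableEq α] [Fintype β] [DecidableEq β]

/-- embeddings with prescribed values on `I` and values outside `Z` elsewhere -/
noncomputable def pre (I : Finset α) (q : α → β) (Z : Finset β) : Finset (α ↪ β) :=
  univ.filter fun f => (∀ i ∈ I, f i = q i) ∧ ∀ i, i ∉ I → f i ∉ Z

theorem mem_pre {I : Finset α} {q : α → β} {Z : Finset β} {f : α ↪ β} :
    f ∈ pre I q Z ↔ (∀ i ∈ I, f i = q i) ∧ ∀ i, i ∉ I → f i ∉ Z := by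
  simp only [pre, mem_filter, mem_univ, true_and]

/-- the equivalence with the embeddings of the rest -/
def preEquiv (I : Finset α) (q : α → β) (hq : Set.InjOn q I) (Z : Finset β)
    (hZ : ∀ i ∈ I, q i ∈ Z) :
    {f : α ↪ β // (∀ i ∈ I, f i = q i) ∧ ∀ i, i ∉ I → f i ∉ Z} ≃
      ({a : α // a ∉ I} ↪ {b : β // b ∉ Z}) where
  toFun f := ⟨fun a => ⟨f.1 a.1, f.2.2 a.1 a.2⟩, fun a b hab => by
    have : f.1 a.1 = f.1 b.1 := congrArg Subtype.val hab
    exact Subtype.ext (f.1.injective this)⟩
  invFun g := ⟨⟨fun a => if h : a ∈ I then q a else (g ⟨a, h⟩).1, by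
    intro a b hab
    by_cases ha : a ∈ I <;> by_cases hb : b ∈ I
    · simp only [ha, hb, dif_pos] at hab
      exact hq ha hb hab
    · simp only [ha, hb, dif_pos, dif_neg, not_false_eq_true] at hab
      exact absurd (hab ▸ hZ a ha) (g ⟨b, hb⟩).2
    · simp only [ha, hb, dif_pos, dif_neg, not_false_eq_true] at hab
      exact absurd (hab ▸ hZ b hb) (g ⟨a, ha⟩).2
    · simp only [ha, hb, dif_neg, not_false_eq_true] at hab
      have := g.injective (Subtype.ext hab)
      exact congrArg Subtype.val this⟩, by
    constructor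
    · intro i hi
      change (if h : i ∈ I then q i else (g ⟨i, h⟩).1) = q i
      rw [dif_pos hi]
    · intro i hi
      change (if h : i ∈ I then q i else (g ⟨i, h⟩).1) ∉ Z
      rw [dif_neg hi]
      exact (g ⟨i, hi⟩).2⟩
  left_inv f := by
    apply Subtype.ext
    apply Function.Embedding.ext
    intro a
    change (if h : a ∈ I then q a else f.1 a) = f.1 a
    split_ifs with h
    · exact (f.2.1 a h).symm
    · rfl
  right_inv g := by
    apply Function.Embedding.ext
    intro a
    apply Subtype.ext
    change (if h : a.1 ∈ I then q a.1 else (g ⟨a.1, h⟩).1) = (g a).1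
    rw [dif_neg a.2]

theorem card_not (I : Finset α) : Fintype.card {a : α // a ∉ I} = Fintype.card α - I.card := by
  rw [Fintype.card_subtype]
  have : (univ.filter fun a => a ∉ I) = univ \ I := by
    ext a; simp
  rw [this, card_sdiff_of_subset (subset_univ _), card_univ]

theorem pre_card (I : Finset α) (q : α → β) (hq : Set.InjOn q I) (Z : Finset β)
    (hZ : ∀ i ∈ I, q i ∈ Z) : (pre I q Z).card =
      (Fintype.card β - Z.card).descFactorial (Fintype.card α - I.card) := by
  rw [← card_not I, ← card_not Z, ← Fintype.card_embedding_eq,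
    ← Fintype.card_congr (preEquiv I q hq Z hZ), Fintype.card_subtype]
  rfl

/-- embeddings with prescribed values -/
noncomputable def val (I : Finset α) (q : α → β) : Finset (α ↪ β) := univ.filter fun f => ∀ i ∈ I, f i = q i

theorem val_card (I : Finset α) (q : α → β) (hq : Set.InjOn q I) : (val I q).card =
      (Fintype.card β - I.card).descFactorial (Fintype.card α - I.card) := by
  have h := pre_card I q hq (I.image q) (fun i hi => mem_image_of_mem _ hi)
  rw [card_image_of_injOn hq] at h
  rw [← h]
  congr 1
  ext f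
  simp only [val, pre, mem_filter, mem_univ, true_and]
  refine ⟨fun hf => ⟨hf, fun i hi hm => ?_⟩, fun hf => hf.1⟩
  obtain ⟨j, hj, hij⟩ := mem_image.1 hm
  rw [← hf j hj] at hij
  exact hi (f.injective hij ▸ hj)

theorem val_le (I : Finset α) (q : α → β) : (val I q).card ≤
      (Fintype.card β - I.card).descFactorial (Fintype.card α - I.card) := by
  rcases (val I q).eq_empty_or_nonempty with h | ⟨f, hf⟩
  · rw [h]; simp
  · have hf' := (mem_filter.1 hf).2
    refine (val_card I q ?_).le
    intro i hi j hj hij
    rw [← hf' i hi, ← hf' j hj] at hij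
    exact f.injective hij

end

/-- facts about successors -/
theorem ne1 {m : ℕ} (i : Fin (m + 3)) : i ≠ i + 1 := by
  intro h
  have h' := congrArg Fin.val h
  rw [Fin.val_add_one] at h'
  split_ifs at h' with hl
  · rw [hl] at h'; simp at h'
  · omega

theorem ne3 {m : ℕ} (i : Fin (m + 3)) : i ≠ i + 1 + 1 := by
  intro h
  have h' := congrArg Fin.val h
  have a := Fin.val_add_one i
  have b := Fin.val_add_one (i + 1)
  rw [b] at h'
  split_ifs at h' with h2
  · have h3 := congrArg Fin.val h2
    rw [a] at h3
    simp only [Fin.val_last] at h3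
    split_ifs at h3 with h1
    all_goals omega
  · rw [a] at h'
    split_ifs at h' with h1
    · have h3 := congrArg Fin.val h1
      simp only [Fin.val_last] at h3
      omega
    · omega

end Pool.Agent.Q265.FC
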