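import Pool.Agent.Q265.FC.Cnt

set_option autoImplicit false
open Finset Function
open scoped Classical

namespace Pool.Agent.Q265.FC

variable {V : Type*} [Fintype V] {m : ℕ}

/-- the number of edges on the closed sequence `f` -/
noncomputable def hh (G : SimpleGraph V) (f : Fin (m + 3) ↪ V) : ℕ :=
  (univ.filter fun i => G.Adj (f i) (f (i + 1))).card

/-- the number of frustrated closed sequences of length `m + 3` -/
noncomputable def fk (m : ℕ) (G : SimpleGraph V) : ℕ :=
  (univ.filter fun f : Fin (m + 3) ↪ V => Odd (hh G f)).card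

theorem val2 (i : Fin (m + 3)) {x y : V} (hxy : x ≠ y) :
    (univ.filter fun f : Fin (m + 3) ↪ V => f i = x ∧ f (i + 1) = y).card =
      (Fintype.card V - 2).descFactorial (m + 1) := by
  have h := val_card (β := V) {i, i + 1} (fun j => if j = i then x else y) (by
    intro a ha b hb hab
    simp only [coe_insert, coe_singleton, Set.mem_insert_iff, Set.mem_singleton_iff] at ha hb
    rcases ha with rfl | rfl <;> rcases hb with rfl | rfl
    · rfl
    · simp only [if_true, (ne1 a).symm, if_false] at hab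
      exact absurd hab hxy
    · simp only [if_true, (ne1 b).symm, if_false] at hab
      exact absurd hab.symm hxy
    · rfl)
  rw [card_pair (ne1 i), Fintype.card_fin, show m + 3 - 2 = m + 1 by omega] at h
  rw [← h]
  congr 1
  ext f
  simp only [val, mem_filter, mem_univ, true_and, mem_insert, mem_singleton, forall_eq_or_imp,
    forall_eq, if_true, (ne1 i).symm, if_false]

theorem val3 (i : Fin (m + 3)) (x y z : V) :
    (univ.filter fun f : Fin (m + 3) ↪ V => f i = x ∧ f (i + 1) = y ∧ f (i + 1 + 1) = z).card ≤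
      (Fintype.card V - 3).descFactorial m := by
  have h := val_le (β := V) {i, i + 1, i + 1 + 1}
    (fun j => if j = i then x else if j = i + 1 then y else z)
  have hc : ({i, i + 1, i + 1 + 1} : Finset (Fin (m + 3))).card = 3 :=
    card_eq_three.2 ⟨_, _, _, ne1 i, ne3 i, ne1 (i + 1), rfl⟩
  rw [hc, Fintype.card_fin, show m + 3 - 3 = m by omega] at h
  refine le_trans (le_of_eq ?_) h
  congr 1
  ext f
  simp only [val, mem_filter, mem_univ, true_and, mem_insert, mem_singleton, forall_eq_or_imp,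
    forall_eq, if_true, (ne1 i).symm, (ne3 i).symm, (ne1 (i + 1)).symm, if_false]

/-- the number of embeddings with four prescribed values -/
noncomputable def P4 (n m : ℕ) : ℕ := if m = 0 then 0 else (n - 4).descFactorial (m - 1)

theorem val4 (i j : Fin (m + 3)) {a b c d : V} (hab : a ≠ b) (hac : a ≠ c) (had : a ≠ d)
    (hbc : b ≠ c) (hbd : b ≠ d) (hcd : c ≠ d) :
    (univ.filter fun f : Fin (m + 3) ↪ V =>
      (f i = a ∧ f (i + 1) = b) ∧ f j = c ∧ f (j + 1) = d).card ≤ P4 (Fintype.card V) m := by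
  rcases (univ.filter fun f : Fin (m + 3) ↪ V =>
      (f i = a ∧ f (i + 1) = b) ∧ f j = c ∧ f (j + 1) = d).eq_empty_or_nonempty with h | ⟨f, hf⟩
  · rw [h]; simp
  · rw [mem_filter] at hf
    obtain ⟨-, ⟨h1, h2⟩, h3, h44⟩ := hf
    have d1 : i ≠ j := fun h => hac (by rw [← h1, ← h3, h])
    have d2 : i ≠ j + 1 := fun h => had (by rw [← h1, ← h44, h])
    have d3 : i + 1 ≠ j := fun h => hbc (by rw [← h2, ← h3, h])
    have d4 : i + 1 ≠ j + 1 := fun h => hbd (by rw [← h2, ← h44, h])
    have hc : ({i, i + 1, j, j + 1} : Finset (Fin (m + 3))).card = 4 := by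
      rw [card_insert_of_notMem, card_insert_of_notMem, card_pair (ne1 j)]
      · simp only [mem_insert, mem_singleton, not_or]; exact ⟨d3, d4⟩
      · simp only [mem_insert, mem_singleton, not_or]; exact ⟨ne1 i, d1, d2⟩
    have h4 := card_le_univ ({i, i + 1, j, j + 1} : Finset (Fin (m + 3)))
    rw [hc, Fintype.card_fin] at h4
    have h := val_le (β := V) {i, i + 1, j, j + 1} (fun t => f t)
    rw [hc, Fintype.card_fin, show m + 3 - 4 = m - 1 by omega] at h
    unfold P4
    rw [if_neg (by omega)]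
    refine le_trans (card_le_card ?_) h
    intro g hg
    rw [mem_filter] at hg
    obtain ⟨-, ⟨g1, g2⟩, g3, g4⟩ := hg
    simp only [val, mem_filter, mem_univ, true_and, mem_insert, mem_singleton, forall_eq_or_imp,
      forall_eq]
    refine ⟨?_, ?_, ?_, ?_⟩
    · rw [g1, h1]
    · rw [g2, h2]
    · rw [g3, h3]
    · rw [g4, h44]

/-- ordered edges -/
noncomputable def darts (G : SimpleGraph V) : Finset (V × V) := univ.filter fun p => G.Adj p.1 p.2

theorem darts_card (G : SimpleGraph V) : (darts G).card = 2 * G.edgeFinset.card := by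
  rw [← SimpleGraph.sum_degrees_eq_twice_card_edges, darts, card_filter,
    ← univ_product_univ, sum_product]
  refine sum_congr rfl fun x _ => ?_
  rw [← SimpleGraph.card_neighborFinset_eq_degree, SimpleGraph.neighborFinset_eq_filter,
    card_filter]

theorem sum_h (G : SimpleGraph V) : ∑ f : Fin (m + 3) ↪ V, hh G f =
    (m + 3) * (2 * G.edgeFinset.card * (Fintype.card V - 2).descFactorial (m + 1)) := by
  simp only [hh]
  have h := sum_card_bipartiteAbove_eq_sum_card_bipartiteBelow
    (s := (univ : Finset (Fin (m + 3) ↪ V))) (t := (univ : Finset (Fin (m + 3))))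
    (fun (f : Fin (m + 3) ↪ V) (i : Fin (m + 3)) => G.Adj (f i) (f (i + 1)))
  simp only [bipartiteAbove, bipartiteBelow] at h
  rw [h]
  have key : ∀ i : Fin (m + 3), (univ.filter fun f : Fin (m + 3) ↪ V =>
      G.Adj (f i) (f (i + 1))).card =
      2 * G.edgeFinset.card * (Fintype.card V - 2).descFactorial (m + 1) := by
    intro i
    rw [card_eq_sum_card_fiberwise (f := fun f : Fin (m + 3) ↪ V => (f i, f (i + 1)))
      (t := darts G)]
    · rw [← darts_card, ← smul_eq_mul, ← sum_const]
      refine sum_congr rfl fun p hp => ?_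
      have hp' : G.Adj p.1 p.2 := (mem_filter.1 hp).2
      rw [← val2 i hp'.ne]
      congr 1
      ext f
      simp only [mem_filter, mem_univ, true_and]
      constructor
      · rintro ⟨-, h⟩
        rw [← h]
        exact ⟨rfl, rfl⟩
      · rintro ⟨h1, h2⟩
        exact ⟨by rw [h1, h2]; exact hp', by rw [h1, h2]⟩
    · intro f hf
      have := (mem_filter.1 (mem_coe.1 hf)).2
      exact mem_coe.2 (mem_filter.2 ⟨mem_univ _, this⟩)
  rw [sum_congr rfl fun i _ => key i, sum_const, smul_eq_mul, card_univ, Fintype.card_fin]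

/-- the triples (sequence, two places with an edge) -/
noncomputable def Om (m : ℕ) (G : SimpleGraph V) :
    Finset ((Fin (m + 3) ↪ V) × (Fin (m + 3) × Fin (m + 3))) :=
  univ.filter fun w => w.2.1 ≠ w.2.2 ∧ G.Adj (w.1 w.2.1) (w.1 (w.2.1 + 1)) ∧
    G.Adj (w.1 w.2.2) (w.1 (w.2.2 + 1))

theorem Om_card (G : SimpleGraph V) :
    (Om m G).card = ∑ f : Fin (m + 3) ↪ V, (hh G f * hh G f - hh G f) := by
  rw [Om, card_filter, ← univ_product_univ, sum_product]
  refine sum_congr rfl fun f _ => ?_
  rw [hh, ← offDiag_card, ← card_filter]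
  congr 1
  ext p
  simp only [mem_filter, mem_univ, true_and, mem_offDiag]
  tauto

theorem edge_ne {f : Fin (m + 3) ↪ V} {i j : Fin (m + 3)} (hij : i ≠ j) :
    s(f i, f (i + 1)) ≠ s(f j, f (j + 1)) := by
  intro h
  rw [Sym2.eq_iff] at h
  rcases h with ⟨h1, -⟩ | ⟨h1, h2⟩
  · exact hij (f.injective h1)
  · have a1 := f.injective h1
    have a2 := f.injective h2
    rw [← a2] at a1
    exact ne3 i a1

/-- two edges with a common vertex -/
theorem fiber_share (G : SimpleGraph V) {x y z : V} (hxy : x ≠ y) (hyz : y ≠ z) (hxz : x ≠ z) :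
    ((Om m G).filter fun w => (s(w.1 w.2.1, w.1 (w.2.1 + 1)), s(w.1 w.2.2, w.1 (w.2.2 + 1))) =
      (s(x, y), s(y, z))).card ≤
      2 * (m + 3) * (Fintype.card V - 3).descFactorial m := by
  have hsub : ((Om m G).filter fun w =>
      (s(w.1 w.2.1, w.1 (w.2.1 + 1)), s(w.1 w.2.2, w.1 (w.2.2 + 1))) = (s(x, y), s(y, z))) ⊆
      ((univ : Finset (Fin (m + 3))).biUnion fun i =>
        (univ.filter fun f : Fin (m + 3) ↪ V => f i = x ∧ f (i + 1) = y ∧
          f (i + 1 + 1) = z).image fun f => (f, (i, i + 1))) ∪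
      ((univ : Finset (Fin (m + 3))).biUnion fun i =>
        (univ.filter fun f : Fin (m + 3) ↪ V => f i = z ∧ f (i + 1) = y ∧
          f (i + 1 + 1) = x).image fun f => (f, (i + 1, i))) := by
    rintro ⟨f, i, j⟩ hw
    rw [mem_filter, Om, mem_filter] at hw
    obtain ⟨⟨-, hij, -, -⟩, he⟩ := hw
    simp only [Prod.mk.injEq, Sym2.eq_iff] at he
    simp only at hij
    rw [mem_union, mem_biUnion, mem_biUnion]
    obtain ⟨h1, h2⟩ := he
    rcases h1 with ⟨h1, h1'⟩ | ⟨h1, h1'⟩ <;> rcases h2 with ⟨h2, h2'⟩ | ⟨h2, h2'⟩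
    · -- f i = x, f (i+1) = y, f j = y, f (j+1) = z
      have hj : j = i + 1 := f.injective (by rw [h2, h1'])
      subst hj
      left
      refine ⟨i, mem_univ _, mem_image.2 ⟨f, mem_filter.2 ⟨mem_univ _, h1, h1', h2'⟩, rfl⟩⟩
    · -- f i = x, f (i+1) = y, f j = z, f (j+1) = y
      have hj : j + 1 = i + 1 := f.injective (by rw [h2', h1'])
      exact absurd (add_right_cancel hj).symm hij
    · -- f i = y, f (i+1) = x, f j = y
      have hj : j = i := f.injective (by rw [h2, h1])
      exact absurd hj.symm hij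
    · -- f i = y, f (i+1) = x, f j = z, f (j+1) = y
      have hj : i = j + 1 := f.injective (by rw [h2', h1])
      subst hj
      right
      refine ⟨j, mem_univ _, mem_image.2 ⟨f, mem_filter.2 ⟨mem_univ _, h2, h1, h1'⟩, rfl⟩⟩
  have b1 : ∀ (x y z : V) (g : Fin (m + 3) → (Fin (m + 3) ↪ V) →
      (Fin (m + 3) ↪ V) × (Fin (m + 3) × Fin (m + 3))),
      ((univ : Finset (Fin (m + 3))).biUnion fun i =>
        (univ.filter fun f : Fin (m + 3) ↪ V => f i = x ∧ f (i + 1) = y ∧
          f (i + 1 + 1) = z).image (g i)).card ≤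
      (m + 3) * (Fintype.card V - 3).descFactorial m := by
    intro x y z g
    refine card_biUnion_le.trans ?_
    calc _ ≤ ∑ _i : Fin (m + 3), (Fintype.card V - 3).descFactorial m :=
          sum_le_sum fun i _ => card_image_le.trans (val3 i x y z)
      _ = _ := by rw [sum_const, smul_eq_mul, card_univ, Fintype.card_fin]
  refine (card_le_card hsub).trans ((card_union_le _ _).trans ?_)
  have c1 := b1 x y z (fun i f => (f, (i, i + 1)))
  have c2 := b1 z y x (fun i f => (f, (i + 1, i)))
  calc _ ≤ (m + 3) * (Fintype.card V - 3).descFactorial m +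
        (m + 3) * (Fintype.card V - 3).descFactorial m := add_le_add c1 c2
    _ = _ := by ring

/-- two edges without common vertex -/
theorem fiber_disj (G : SimpleGraph V) (hn : 2 * (m + 3) + 3 ≤ Fintype.card V)
    {a b c d : V} (hab : a ≠ b) (hac : a ≠ c) (had : a ≠ d)
    (hbc : b ≠ c) (hbd : b ≠ d) (hcd : c ≠ d) :
    ((Om m G).filter fun w => (s(w.1 w.2.1, w.1 (w.2.1 + 1)), s(w.1 w.2.2, w.1 (w.2.2 + 1))) =
      (s(a, b), s(c, d))).card ≤
      2 * (m + 3) * (Fintype.card V - 3).descFactorial m := by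
  have hsub : ((Om m G).filter fun w =>
      (s(w.1 w.2.1, w.1 (w.2.1 + 1)), s(w.1 w.2.2, w.1 (w.2.2 + 1))) = (s(a, b), s(c, d))) ⊆
      ((univ : Finset (Fin (m + 3) × Fin (m + 3))).biUnion fun p =>
        ((univ.filter fun f : Fin (m + 3) ↪ V => (f p.1 = a ∧ f (p.1 + 1) = b) ∧
            f p.2 = c ∧ f (p.2 + 1) = d) ∪
          (univ.filter fun f : Fin (m + 3) ↪ V => (f p.1 = a ∧ f (p.1 + 1) = b) ∧
            f p.2 = d ∧ f (p.2 + 1) = c) ∪
          (univ.filter fun f : Fin (m + 3) ↪ V => (f p.1 = b ∧ f (p.1 + 1) = a) ∧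
            f p.2 = c ∧ f (p.2 + 1) = d) ∪
          (univ.filter fun f : Fin (m + 3) ↪ V => (f p.1 = b ∧ f (p.1 + 1) = a) ∧
            f p.2 = d ∧ f (p.2 + 1) = c)).image fun f => (f, p)) := by
    rintro ⟨f, i, j⟩ hw
    rw [mem_filter, Om, mem_filter] at hw
    obtain ⟨-, he⟩ := hw
    simp only [Prod.mk.injEq, Sym2.eq_iff] at he
    rw [mem_biUnion]
    refine ⟨(i, j), mem_univ _, mem_image.2 ⟨f, ?_, rfl⟩⟩
    simp only [mem_union, mem_filter, mem_univ, true_and]
    tauto
  have hP : 2 * (m + 3) * P4 (Fintype.card V) m ≤ (Fintype.card V - 3).descFactorial m := by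
    unfold P4
    rcases Nat.eq_zero_or_pos m with rfl | hm
    · simp
    · rw [if_neg (by omega)]
      obtain ⟨l, rfl⟩ : ∃ l, m = l + 1 := ⟨m - 1, by omega⟩
      obtain ⟨n', hn'⟩ : ∃ n', Fintype.card V - 3 = n' + 1 := ⟨Fintype.card V - 4, by omega⟩
      rw [hn', Nat.succ_descFactorial_succ, Nat.add_sub_cancel,
        show Fintype.card V - 4 = n' by omega]
      exact Nat.mul_le_mul_right _ (by omega)
  refine (card_le_card hsub).trans (card_biUnion_le.trans ?_)
  calc _ ≤ ∑ _p : Fin (m + 3) × Fin (m + 3), 4 * P4 (Fintype.card V) m := by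
        refine sum_le_sum fun p _ => card_image_le.trans ?_
        have e1 := val4 p.1 p.2 hab hac had hbc hbd hcd
        have e2 := val4 p.1 p.2 hab had hac hbd hbc hcd.symm
        have e3 := val4 p.1 p.2 hab.symm hbc hbd hac had hcd
        have e4 := val4 p.1 p.2 hab.symm hbd hbc had hac hcd.symm
        refine (card_union_le _ _).trans ?_
        refine (add_le_add ((card_union_le _ _).trans
          (add_le_add ((card_union_le _ _).trans (add_le_add e1 e2)) e3)) e4).trans ?_
        omega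
    _ = (m + 3) * (m + 3) * (4 * P4 (Fintype.card V) m) := by
        rw [sum_const, smul_eq_mul, card_univ, Fintype.card_prod, Fintype.card_fin]
    _ = 2 * (m + 3) * (2 * (m + 3) * P4 (Fintype.card V) m) := by ring
    _ ≤ _ := Nat.mul_le_mul_left _ hP

theorem Om_le (G : SimpleGraph V) (hn : 2 * (m + 3) + 3 ≤ Fintype.card V) :
    (Om m G).card ≤ 2 * (m + 3) * (Fintype.card V - 3).descFactorial m *
      (G.edgeFinset.card * G.edgeFinset.card - G.edgeFinset.card) := by
  rw [← offDiag_card]
  apply card_le_mul_card_image_of_maps_to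
    (f := fun w : (Fin (m + 3) ↪ V) × (Fin (m + 3) × Fin (m + 3)) =>
      (s(w.1 w.2.1, w.1 (w.2.1 + 1)), s(w.1 w.2.2, w.1 (w.2.2 + 1))))
  · rintro ⟨f, i, j⟩ hw
    rw [Om, mem_filter] at hw
    obtain ⟨-, hij, h1, h2⟩ := hw
    rw [mem_offDiag]
    refine ⟨?_, ?_, edge_ne hij⟩
    · rw [SimpleGraph.mem_edgeFinset, SimpleGraph.mem_edgeSet]; exact h1
    · rw [SimpleGraph.mem_edgeFinset, SimpleGraph.mem_edgeSet]; exact h2
  · rintro ⟨e, e'⟩ he
    rw [mem_offDiag] at he
    obtain ⟨he1, he2, hne⟩ := he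
    simp only at he1 he2 hne
    rw [SimpleGraph.mem_edgeFinset] at he1 he2
    induction e with
    | _ a b =>
    induction e' with
    | _ c d =>
    rw [SimpleGraph.mem_edgeSet] at he1 he2
    have hab := he1.ne
    have hcd := he2.ne
    by_cases hac : a = c
    · subst hac
      have hbd : b ≠ d := by rintro rfl; exact hne rfl
      rw [Sym2.eq_swap (a := a) (b := b)]
      exact fiber_share G hab.symm hcd hbd
    by_cases had : a = d
    · subst had
      have hbc : b ≠ c := by rintro rfl; exact hne Sym2.eq_swap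
      rw [Sym2.eq_swap (a := a) (b := b), Sym2.eq_swap (a := c) (b := a)]
      exact fiber_share G hab.symm hcd.symm hbc
    by_cases hbc : b = c
    · subst hbc
      exact fiber_share G hab hcd had
    by_cases hbd : b = d
    · subst hbd
      rw [Sym2.eq_swap (a := c) (b := b)]
      exact fiber_share G hab hcd.symm hac
    · exact fiber_disj G hn hab hac had hbc hbd hcd

/-- the lower bound -/
theorem fk_low (G : SimpleGraph V) (hn : 2 * (m + 3) + 3 ≤ Fintype.card V) :
    2 * ((m : ℤ) + 3) * ((Fintype.card V - 3).descFactorial m : ℤ) *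
      (G.edgeFinset.card * ((Fintype.card V : ℤ) - 1 - G.edgeFinset.card)) ≤ fk m G := by
  set D := G.edgeFinset.card with hD
  set P3 := (Fintype.card V - 3).descFactorial m with hP3
  have h2 : (Fintype.card V - 2).descFactorial (m + 1) = (Fintype.card V - 2) * P3 := by
    obtain ⟨n', hn'⟩ : ∃ n', Fintype.card V = n' + 3 := ⟨Fintype.card V - 3, by omega⟩
    rw [hP3, hn', show n' + 3 - 2 = n' + 1 by omega, Nat.succ_descFactorial_succ,
      show n' + 3 - 3 = n' by omega]
  have s1 : (∑ f : Fin (m + 3) ↪ V, (hh G f : ℤ)) =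
      ((m : ℤ) + 3) * (2 * D * (((Fintype.card V : ℤ) - 2) * P3)) := by
    have := sum_h (m := m) G
    rw [h2] at this
    have e : ((Fintype.card V - 2 : ℕ) : ℤ) = (Fintype.card V : ℤ) - 2 := by omega
    rw [← e]
    exact_mod_cast this
  have s2 : (∑ f : Fin (m + 3) ↪ V, ((hh G f : ℤ) * hh G f - hh G f)) ≤
      2 * ((m : ℤ) + 3) * P3 * (D * D - D) := by
    have h := Om_le (m := m) G hn
    rw [Om_card] at h
    have e1 : ∀ a : ℕ, ((a * a - a : ℕ) : ℤ) = (a : ℤ) * a - a := by
      intro a
      rw [Nat.cast_sub (by nlinarith [Nat.zero_le a, sq_nonneg a, Nat.le_mul_self a])]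
      push_cast; ring
    have h' : ((∑ f : Fin (m + 3) ↪ V, (hh G f * hh G f - hh G f) : ℕ) : ℤ) ≤
        ((2 * (m + 3) * P3 * (D * D - D) : ℕ) : ℤ) := by exact_mod_cast h
    rw [Nat.cast_sum] at h'
    simp only [e1] at h'
    rw [Nat.cast_mul, e1] at h'
    push_cast at h'
    exact h'
  have s3 : (∑ f : Fin (m + 3) ↪ V, ((hh G f : ℤ) - ((hh G f : ℤ) * hh G f - hh G f))) ≤
      fk m G := by
    rw [fk, card_filter]
    push_cast
    refine sum_le_sum fun f _ => ?_
    split_ifs with ho
    · nlinarith [sq_nonneg ((hh G f : ℤ) - 1)]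
    · rcases Nat.lt_or_ge (hh G f) 2 with h | h
      · have : hh G f = 0 := by
          rcases Nat.eq_zero_or_pos (hh G f) with h0 | h0
          · exact h0
          · exfalso; apply ho
            have : hh G f = 1 := by omega
            rw [this]; exact odd_one
        rw [this]; simp
      · have : (2 : ℤ) ≤ hh G f := by exact_mod_cast h
        nlinarith
  rw [sum_sub_distrib, s1] at s3
  linarith

end Pool.Agent.Q265.FC
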