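import Pool.Agent.Q265.FC.Str

set_option autoImplicit false
open Finset Function
open scoped Classical

namespace Pool.Agent.Q265.FC

variable {V : Type*} [Fintype V] {m : ℕ}

theorem zz1 : ∀ e e0 a b c : ZMod 2, a + c = e → b + c = e0 → e = b + (e0 + a) := by decide

theorem zz2 : ∀ a h : ZMod 2, a = h + a + h := by decide

theorem zz3 : ∀ a b c e h : ZMod 2, b + a = e → e = c + h → a = c + b + h := by decide

/-- the structure away from the imperfect partners of `v` -/
theorem structure_of (G : SimpleGraph V) (v : V) (hn : (Ipart G v).card + 2 ≤ Fintype.card V) :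
    ∃ (s : V → ZMod 2) (h : ZMod 2), ∀ x y, x ≠ y → ¬ (x ∈ Ipart G v ∧ y ∈ Ipart G v) →
      sg G x y = s x + s y + h := by
  set X := Ipart G v with hX
  have hperf : ∀ w, w ≠ v → w ∉ X → ∃ e, ∀ z, z ≠ v → z ≠ w → sg G v z + sg G w z = e := by
    intro w hwv hwX
    have h1 : (v, w) ∉ Imp G := fun h => hwX (mem_filter.2 ⟨mem_univ _, h⟩)
    by_cases h0 : (Dis G 0 v w).Nonempty
    · refine ⟨0, fun z hz1 hz2 => ?_⟩
      rcases z2 (sg G v z + sg G w z) with h | h
      · exact h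
      · exfalso
        apply h1
        exact mem_filter.2 ⟨mem_univ _, hwv.symm, h0, ⟨z, mem_filter.2 ⟨mem_univ _, hz1, hz2, h⟩⟩⟩
    · refine ⟨1, fun z hz1 hz2 => ?_⟩
      rcases z2 (sg G v z + sg G w z) with h | h
      · exfalso
        exact h0 ⟨z, mem_filter.2 ⟨mem_univ _, hz1, hz2, h⟩⟩
      · exact h
  choose! ep hep using hperf
  obtain ⟨w0, hw0⟩ : (univ \ insert v X).Nonempty := by
    rw [← card_pos]
    have := le_card_sdiff (insert v X) (univ : Finset V)
    have h2 := card_insert_le v X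
    rw [card_univ] at this
    omega
  simp only [mem_sdiff, mem_univ, true_and, mem_insert, not_or] at hw0
  set h := ep w0 + sg G v w0 with hh0
  have hkey : ∀ w, w ≠ v → w ∉ X → ep w = sg G v w + h := by
    intro w hwv hwX
    by_cases hw : w = w0
    · subst hw
      rw [hh0]
      generalize ep w = a
      generalize sg G v w = b
      revert a b
      decide
    · have e1 := hep w hwv hwX w0 hw0.1 (Ne.symm hw)
      have e2 := hep w0 hw0.1 hw0.2 w hwv hw
      rw [sg_comm G w0 w] at e2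
      exact zz1 _ _ _ _ _ e1 e2
  refine ⟨fun x => if x = v then h else sg G v x, h, ?_⟩
  intro x y hxy hXX
  simp only
  by_cases hxv : x = v
  · subst hxv
    rw [if_pos rfl, if_neg hxy.symm]
    exact zz2 _ _
  by_cases hyv : y = v
  · subst hyv
    rw [if_pos rfl, if_neg hxy, sg_comm G x y]
    have := zz2 (sg G y x) h
    rw [add_comm (sg G y x) h]
    exact this
  rw [if_neg hxv, if_neg hyv]
  by_cases hx : x ∈ X
  · have hy : y ∉ X := fun hy => hXX ⟨hx, hy⟩
    have e1 := hep y hyv hy x hxv hxy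
    rw [sg_comm G x y, add_comm (sg G v x) (sg G v y)]
    exact zz3 _ _ _ _ _ e1 (hkey y hyv hy)
  · have e1 := hep x hxv hx y hyv hxy.symm
    exact zz3 _ _ _ _ _ e1 (hkey x hxv hx)

/-- the graph of the flipped pairs -/
noncomputable def flip (G : SimpleGraph V) (s : V → ZMod 2) (h : ZMod 2) : SimpleGraph V where
  Adj x y := x ≠ y ∧ sg G x y + s x + s y + h = 1
  symm := ⟨fun x y hh => ⟨hh.1.symm, by
    have h2 := hh.2
    rw [sg_comm G x y, add_assoc (sg G y x), add_comm (s x), ← add_assoc] at h2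
    exact h2⟩⟩
  loopless := ⟨fun x h => h.1 rfl⟩

theorem zz4 : ∀ a : ZMod 2, (if a = 1 then (1 : ZMod 2) else 0) = a := by decide

omit [Fintype V] in
theorem flip_sg (G : SimpleGraph V) (s : V → ZMod 2) (h : ZMod 2) {x y : V} (hxy : x ≠ y) :
    sg (flip G s h) x y = sg G x y + s x + s y + h := by
  unfold sg
  have : (flip G s h).Adj x y ↔ sg G x y + s x + s y + h = 1 :=
    ⟨fun a => a.2, fun a => ⟨hxy, a⟩⟩
  simp only [this]
  exact zz4 _

omit [Fintype V] in
theorem flip_sum (G : SimpleGraph V) (s : V → ZMod 2) (h : ZMod 2) (f : Fin (m + 3) ↪ V) :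
    ∑ i, sg (flip G s h) (f i) (f (i + 1)) =
      ∑ i, sg G (f i) (f (i + 1)) + ((m + 3 : ℕ) : ZMod 2) * h := by
  have h1 : ∀ i, sg (flip G s h) (f i) (f (i + 1)) =
      sg G (f i) (f (i + 1)) + (s (f i) + s (f (i + 1))) + h := by
    intro i
    rw [flip_sg G s h (fun e => ne1 i (f.injective e))]
    ring
  rw [sum_congr rfl fun i _ => h1 i, sum_add_distrib, sum_add_distrib, sum_add_distrib]
  have h2 : ∑ i : Fin (m + 3), s (f (i + 1)) = ∑ i : Fin (m + 3), s (f i) :=
    Equiv.sum_comp (Equiv.addRight (1 : Fin (m + 3))) (fun i => s (f i))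
  rw [h2, CharTwo.add_self_eq_zero, add_zero, sum_const, card_univ, Fintype.card_fin, nsmul_eq_mul]

theorem flip_fk0 (G : SimpleGraph V) (s : V → ZMod 2) (h : ZMod 2)
    (h0 : ((m + 3 : ℕ) : ZMod 2) * h = 0) : fk m (flip G s h) = fk m G := by
  unfold fk
  congr 1
  ext f
  simp only [mem_filter, mem_univ, true_and]
  rw [odd_iff, odd_iff, flip_sum, h0, add_zero]

theorem flip_fk1 (G : SimpleGraph V) (s : V → ZMod 2) (h : ZMod 2)
    (h1 : ((m + 3 : ℕ) : ZMod 2) * h = 1) :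
    fk m (flip G s h) + fk m G = (Fintype.card V).descFactorial (m + 3) := by
  have e : (univ.filter fun f : Fin (m + 3) ↪ V => Odd (hh (flip G s h) f)) =
      univ.filter fun f : Fin (m + 3) ↪ V => ¬ Odd (hh G f) := by
    ext f
    simp only [mem_filter, mem_univ, true_and]
    rw [odd_iff, odd_iff, flip_sum, h1]
    generalize ∑ i, sg G (f i) (f (i + 1)) = a
    revert a
    decide
  have h2 := card_filter_add_card_filter_not (s := (univ : Finset (Fin (m + 3) ↪ V)))
    (fun f => Odd (hh G f))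
  rw [card_univ, Fintype.card_embedding_eq, Fintype.card_fin] at h2
  unfold fk
  rw [e]
  omega

theorem fk_up (H : SimpleGraph V) : fk m H ≤
    (m + 3) * (2 * H.edgeFinset.card * (Fintype.card V - 2).descFactorial (m + 1)) := by
  rw [← sum_h, fk, card_filter]
  refine sum_le_sum fun f _ => ?_
  split_ifs with h
  · exact h.pos
  · exact Nat.zero_le _

theorem flip_edges (G : SimpleGraph V) (s : V → ZMod 2) (h : ZMod 2) {X : Finset V}
    (hX : ∀ x y, x ≠ y → ¬ (x ∈ X ∧ y ∈ X) → sg G x y = s x + s y + h) :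
    (flip G s h).edgeFinset.card ≤ X.card * X.card := by
  rw [← card_product]
  have hsub : (flip G s h).edgeFinset ⊆ (X ×ˢ X).image fun p => s(p.1, p.2) := by
    intro e he
    rw [SimpleGraph.mem_edgeFinset] at he
    induction e with
    | _ x y =>
    rw [SimpleGraph.mem_edgeSet] at he
    obtain ⟨h1, h2⟩ := he
    by_cases hxy : x ∈ X ∧ y ∈ X
    · exact mem_image.2 ⟨(x, y), mem_product.2 hxy, rfl⟩
    · rw [hX x y h1 hxy] at h2
      exfalso
      revert h2
      generalize s x = a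
      generalize s y = b
      generalize h = c
      revert a b c
      decide
  exact (card_le_card hsub).trans card_image_le

theorem num_a {n t D K2 : ℤ} (d1 : t + 1 ≤ D) (d2 : D ≤ K2) (d3 : 60 * (K2 + 1) ≤ n)
    (d4 : t + 1 ≤ K2) (ht : 0 ≤ t) : (t + 1) * (n - 2 - t) ≤ D * (n - 1 - D) := by
  have h1 : 0 ≤ (D - (t + 1)) * (n - 1 - D - (t + 1)) := by
    apply mul_nonneg <;> linarith
  have h2 : D * (n - 1 - D) - (t + 1) * (n - 2 - t) =
    (D - (t + 1)) * (n - 1 - D - (t + 1)) := by ring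
  linarith

theorem num_b {n t K2 m P3 D : ℤ} (hm : 0 ≤ m) (ht : 0 ≤ t) (hP : 0 < P3) (d2 : D ≤ K2)
    (d3 : 20 * (K2 + 1) * (m + 3) ≤ n) (d4 : t + 1 ≤ K2) (d6 : 60 * (K2 + 1) ≤ n) :
    2 * (m + 3) * P3 * ((t + 1) * (n - 2 - t)) + (m + 3) * (2 * D * ((n - 2) * P3)) <
      n * ((n - 1) * ((n - 2) * P3)) := by
  have hn2 : 0 < n - 2 := by linarith
  have hQ : 0 < (n - 2) * P3 := mul_pos hn2 hP
  have hK : 0 ≤ K2 := by linarith
  have hm3 : 0 ≤ 2 * (m + 3) := by linarith
  have g1 : 2 * (m + 3) * P3 * ((t + 1) * (n - 2 - t)) ≤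
      2 * (m + 3) * K2 * ((n - 2) * P3) := by
    have h1 : (t + 1) * (n - 2 - t) ≤ K2 * (n - 2) :=
      mul_le_mul d4 (by linarith) (by linarith) hK
    calc 2 * (m + 3) * P3 * ((t + 1) * (n - 2 - t)) ≤
        2 * (m + 3) * P3 * (K2 * (n - 2)) :=
          mul_le_mul_of_nonneg_left h1 (mul_nonneg hm3 hP.le)
      _ = _ := by ring
  have g2 : (m + 3) * (2 * D * ((n - 2) * P3)) ≤ 2 * (m + 3) * K2 * ((n - 2) * P3) := by
    calc (m + 3) * (2 * D * ((n - 2) * P3)) = (2 * (m + 3) * ((n - 2) * P3)) * D := by ring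
      _ ≤ (2 * (m + 3) * ((n - 2) * P3)) * K2 :=
          mul_le_mul_of_nonneg_left d2 (mul_nonneg hm3 hQ.le)
      _ = _ := by ring
  have g4 : 4 * (m + 3) * K2 < n := by nlinarith
  have g5 : n ≤ n * (n - 1) := by nlinarith
  have g3 : 4 * (m + 3) * K2 * ((n - 2) * P3) < n * (n - 1) * ((n - 2) * P3) :=
    mul_lt_mul_of_pos_right (lt_of_lt_of_le g4 g5) hQ
  have e1 : n * ((n - 1) * ((n - 2) * P3)) = n * (n - 1) * ((n - 2) * P3) := by ring
  have e2 : 4 * (m + 3) * K2 * ((n - 2) * P3) = 2 * (m + 3) * K2 * ((n - 2) * P3) +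
    2 * (m + 3) * K2 * ((n - 2) * P3) := by ring
  linarith

/-- the main theorem -/
theorem main (m t : ℕ) : ∃ n0, ∀ n, n0 ≤ n → ∀ (V : Type) [Fintype V], Fintype.card V = n →
    ∀ (G : SimpleGraph V) (c : V) (L : Finset V) (hc : c ∉ L), L.card = t + 1 →
      fk m G < fk m (star c L hc) →
      ∃ (s : V → ZMod 2) (h : ZMod 2), (flip G s h).edgeFinset.card ≤ t := by
  set K := 8 * (m + 3) * (t + 1) with hK
  refine ⟨10 * (m + 3) * (t + 2) * (K ^ 2 + 1), ?_⟩
  intro n hn V _ hV G c L hc hL hlt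
  have hup := star_up (m := m) c L hc
  rw [hL, hV] at hup
  -- size facts
  have hKpos : 24 ≤ K := by rw [hK]; nlinarith
  have hn1 : 20 * (K ^ 2 + 1) * (m + 3) ≤ n := by
    refine le_trans ?_ hn
    have : 20 ≤ 10 * (t + 2) := by omega
    calc 20 * (K ^ 2 + 1) * (m + 3) = 20 * ((K ^ 2 + 1) * (m + 3)) := by ring
      _ ≤ 10 * (t + 2) * ((K ^ 2 + 1) * (m + 3)) := Nat.mul_le_mul_right _ this
      _ = _ := by ring
  have hn2 : 60 * (K ^ 2 + 1) ≤ n := by
    refine le_trans ?_ hn1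
    nlinarith [Nat.zero_le (K ^ 2), Nat.zero_le m]
  have hn3 : 20 * (m + 3) ≤ n := by
    refine le_trans ?_ hn1
    nlinarith [Nat.zero_le (K ^ 2), Nat.zero_le m]
  have htK : t + 1 ≤ K := by rw [hK]; nlinarith
  have hKK : K ≤ K ^ 2 := by nlinarith
  set P3 := (n - 3).descFactorial m with hP3
  have hP3pos : 0 < P3 := by
    rw [hP3, Nat.descFactorial_pos]; omega
  obtain ⟨v, hv⟩ := few_imperfect (m := m) G hV (by omega)
    (B := 2 * (m + 3) * ((t + 1) * (n - 1 - (t + 1)))) (by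
      refine hlt.le.trans (hup.trans (le_of_eq ?_))
      ring)
  have hX : (Ipart G v).card ≤ K := by
    have h1 : (n - 3 - m) * (Ipart G v).card ≤ (n - 3 - m) * K := by
      refine hv.trans ?_
      have : n - 1 - (t + 1) ≤ 2 * (n - 3 - m) := by omega
      calc 2 * (2 * (m + 3) * ((t + 1) * (n - 1 - (t + 1))))
          = (4 * (m + 3) * (t + 1)) * (n - 1 - (t + 1)) := by ring
        _ ≤ (4 * (m + 3) * (t + 1)) * (2 * (n - 3 - m)) := Nat.mul_le_mul_left _ this
        _ = _ := by rw [hK]; ring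
    exact Nat.le_of_mul_le_mul_left h1 (by omega)
  obtain ⟨s, h, hs⟩ := structure_of G v (by rw [hV]; omega)
  refine ⟨s, h, ?_⟩
  have hD := flip_edges G s h hs
  have hDK : (flip G s h).edgeFinset.card ≤ K ^ 2 := by
    refine hD.trans ?_
    rw [pow_two]
    exact Nat.mul_le_mul hX hX
  by_contra hcon
  push Not at hcon
  have hup' : (fk m (star c L hc) : ℤ) ≤ 2 * ((m : ℤ) + 3) * P3 * (((t : ℤ) + 1) * (n - 2 - t)) := by
    have e : ((n - 1 - (t + 1) : ℕ) : ℤ) = (n : ℤ) - 2 - t := by omega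
    rw [← e]
    exact_mod_cast hup
  rcases z2 (((m + 3 : ℕ) : ZMod 2) * h) with h0 | h1
  · have hfk := flip_fk0 G s h h0
    have hlow := fk_low (m := m) (flip G s h) (by rw [hV]; omega)
    rw [hV, hfk] at hlow
    set D := (flip G s h).edgeFinset.card with hDdef
    have hlt' : (fk m G : ℤ) < fk m (star c L hc) := by exact_mod_cast hlt
    have d1 : (t : ℤ) + 1 ≤ D := by exact_mod_cast hcon
    have d2 : (D : ℤ) ≤ K ^ 2 := by exact_mod_cast hDK
    have d3 : 60 * ((K : ℤ) ^ 2 + 1) ≤ n := by exact_mod_cast hn2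
    have d4 : (t : ℤ) + 1 ≤ K ^ 2 := by
      have : t + 1 ≤ K ^ 2 := htK.trans hKK
      exact_mod_cast this
    have d5 : ((t : ℤ) + 1) * (n - 2 - t) ≤ D * (n - 1 - D) :=
      num_a d1 d2 d3 d4 (by positivity)
    have d6 : 2 * ((m : ℤ) + 3) * P3 * (((t : ℤ) + 1) * (n - 2 - t)) ≤
        2 * ((m : ℤ) + 3) * P3 * (D * (n - 1 - D)) :=
      mul_le_mul_of_nonneg_left d5 (by positivity)
    linarith
  · have hfk := flip_fk1 G s h h1
    have hfu := fk_up (m := m) (flip G s h)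
    rw [hV] at hfk hfu
    have e1 : n.descFactorial (m + 3) = n * ((n - 1) * (n - 2).descFactorial (m + 1)) := by
      obtain ⟨l, rfl⟩ : ∃ l, n = l + 2 := ⟨n - 2, by omega⟩
      rw [Nat.succ_descFactorial_succ, Nat.succ_descFactorial_succ]
      simp
    have e2 : (n - 2).descFactorial (m + 1) = (n - 2) * P3 := by
      obtain ⟨l, hl⟩ : ∃ l, n = l + 3 := ⟨n - 3, by omega⟩
      rw [hP3, hl, show l + 3 - 2 = l + 1 by omega, Nat.succ_descFactorial_succ,
        show l + 3 - 3 = l by omega]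
    rw [e1, e2] at hfk
    rw [e2] at hfu
    set D := (flip G s h).edgeFinset.card with hDdef
    have hlt' : (fk m G : ℤ) < fk m (star c L hc) := by exact_mod_cast hlt
    have c1 : ((n - 1 : ℕ) : ℤ) = (n : ℤ) - 1 := by omega
    have c2 : ((n - 2 : ℕ) : ℤ) = (n : ℤ) - 2 := by omega
    have f1 : (fk m (flip G s h) : ℤ) + fk m G = n * (((n : ℤ) - 1) * ((n - 2) * P3)) := by
      rw [← c1, ← c2]; exact_mod_cast hfk
    have f2 : (fk m (flip G s h) : ℤ) ≤ ((m : ℤ) + 3) * (2 * D * ((n - 2) * P3)) := by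
      rw [← c2]; exact_mod_cast hfu
    have d2 : (D : ℤ) ≤ K ^ 2 := by exact_mod_cast hDK
    have d3 : 20 * ((K : ℤ) ^ 2 + 1) * (m + 3) ≤ n := by exact_mod_cast hn1
    have d4 : (t : ℤ) + 1 ≤ K ^ 2 := by
      have : t + 1 ≤ K ^ 2 := htK.trans hKK
      exact_mod_cast this
    have d6 : 60 * ((K : ℤ) ^ 2 + 1) ≤ n := by exact_mod_cast hn2
    have hP : (0 : ℤ) < P3 := by exact_mod_cast hP3pos
    have key := num_b (n := n) (t := t) (K2 := K ^ 2) (m := m) (P3 := P3) (D := D)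
      (by positivity) (by positivity) hP d2 d3 d4 d6
    linarith

end Pool.Agent.Q265.FC
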