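import Pool.Agent.Q265.FC.Low

set_option autoImplicit false
open Finset Function
open scoped Classical

namespace Pool.Agent.Q265.FC

variable {V : Type*} [Fintype V] {m : ℕ}

/-- the star with centre `c` and leaves `L` -/
def star (c : V) (L : Finset V) (hc : c ∉ L) : SimpleGraph V where
  Adj x y := (x = c ∧ y ∈ L) ∨ (y = c ∧ x ∈ L)
  symm := ⟨fun x y h => h.elim Or.inr Or.inl⟩
  loopless := ⟨fun x h => by
    rcases h with ⟨h1, h2⟩ | ⟨h1, h2⟩ <;> exact hc (h1 ▸ h2)⟩

theorem star_up (c : V) (L : Finset V) (hc : c ∉ L) : fk m (star c L hc) ≤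
    2 * (m + 3) * (Fintype.card V - 3).descFactorial m * (L.card * (Fintype.card V - 1 - L.card)) := by
  have hsub : (univ.filter fun f : Fin (m + 3) ↪ V => Odd (hh (star c L hc) f)) ⊆
      ((univ : Finset (Fin (m + 3))).biUnion fun i =>
        (L ×ˢ (univ \ insert c L)).biUnion fun p =>
          (univ.filter fun f : Fin (m + 3) ↪ V => f i = p.2 ∧ f (i + 1) = c ∧ f (i + 1 + 1) = p.1) ∪
          (univ.filter fun f : Fin (m + 3) ↪ V => f i = p.1 ∧ f (i + 1) = c ∧
            f (i + 1 + 1) = p.2)) := by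
    intro f hf
    have ho := (mem_filter.1 hf).2
    have hne : (univ.filter fun i => (star c L hc).Adj (f i) (f (i + 1))).Nonempty := by
      rw [← card_pos]
      exact ho.pos
    obtain ⟨j, hj⟩ := hne
    have hjA := (mem_filter.1 hj).2
    obtain ⟨i, hi⟩ : ∃ i, f (i + 1) = c := by
      rcases hjA with ⟨h, -⟩ | ⟨h, -⟩
      · exact ⟨j - 1, by rw [sub_add_cancel]; exact h⟩
      · exact ⟨j, h⟩
    have hset : ∀ t, (star c L hc).Adj (f t) (f (t + 1)) ↔
        (t = i ∧ f i ∈ L) ∨ (t = i + 1 ∧ f (i + 1 + 1) ∈ L) := by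
      intro t
      constructor
      · rintro (⟨h1, h2⟩ | ⟨h1, h2⟩)
        · have : t = i + 1 := f.injective (by rw [h1, hi])
          subst this
          exact Or.inr ⟨rfl, h2⟩
        · have : t + 1 = i + 1 := f.injective (by rw [h1, hi])
          have := add_right_cancel this
          subst this
          exact Or.inl ⟨rfl, h2⟩
      · rintro (⟨rfl, h2⟩ | ⟨rfl, h2⟩)
        · exact Or.inr ⟨hi, h2⟩
        · exact Or.inl ⟨hi, h2⟩
    have hh' : hh (star c L hc) f = (univ.filter fun t : Fin (m + 3) =>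
        (t = i ∧ f i ∈ L) ∨ (t = i + 1 ∧ f (i + 1 + 1) ∈ L)).card := by
      rw [hh]
      congr 1
      ext t
      simp only [mem_filter, mem_univ, true_and]
      exact hset t
    rw [hh'] at ho
    have hic : f i ≠ c := fun h => ne1 i (f.injective (by rw [h, hi]))
    have hic' : f (i + 1 + 1) ≠ c := fun h => ne1 (i + 1) (f.injective (by rw [h, hi]))
    rw [mem_biUnion]
    refine ⟨i, mem_univ _, ?_⟩
    rw [mem_biUnion]
    by_cases h1 : f i ∈ L <;> by_cases h2 : f (i + 1 + 1) ∈ L
    · exfalso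
      have : (univ.filter fun t : Fin (m + 3) =>
        (t = i ∧ f i ∈ L) ∨ (t = i + 1 ∧ f (i + 1 + 1) ∈ L)) = {i, i + 1} := by
        ext t
        simp only [mem_filter, mem_univ, true_and, mem_insert, mem_singleton, h1, h2, and_true]
      rw [this, card_pair (ne1 i)] at ho
      exact absurd ho (by decide)
    · refine ⟨(f i, f (i + 1 + 1)), ?_, ?_⟩
      · rw [mem_product]
        refine ⟨h1, ?_⟩
        simp only [mem_sdiff, mem_univ, true_and, mem_insert, not_or]
        exact ⟨hic', h2⟩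
      · apply mem_union_right
        exact mem_filter.2 ⟨mem_univ _, rfl, hi, rfl⟩
    · refine ⟨(f (i + 1 + 1), f i), ?_, ?_⟩
      · rw [mem_product]
        refine ⟨h2, ?_⟩
        simp only [mem_sdiff, mem_univ, true_and, mem_insert, not_or]
        exact ⟨hic, h1⟩
      · apply mem_union_left
        exact mem_filter.2 ⟨mem_univ _, rfl, hi, rfl⟩
    · exfalso
      have : (univ.filter fun t : Fin (m + 3) =>
        (t = i ∧ f i ∈ L) ∨ (t = i + 1 ∧ f (i + 1 + 1) ∈ L)) = ∅ := by
        rw [filter_eq_empty_iff]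
        intro t _ h
        rcases h with ⟨-, h⟩ | ⟨-, h⟩
        · exact h1 h
        · exact h2 h
      rw [this] at ho
      simp at ho
  rw [fk]
  refine (card_le_card hsub).trans (card_biUnion_le.trans ?_)
  have hinner : ∀ i : Fin (m + 3), ((L ×ˢ (univ \ insert c L)).biUnion fun p =>
      (univ.filter fun f : Fin (m + 3) ↪ V => f i = p.2 ∧ f (i + 1) = c ∧ f (i + 1 + 1) = p.1) ∪
      (univ.filter fun f : Fin (m + 3) ↪ V => f i = p.1 ∧ f (i + 1) = c ∧
            f (i + 1 + 1) = p.2)).card ≤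
      (L.card * (Fintype.card V - 1 - L.card)) * (2 * (Fintype.card V - 3).descFactorial m) := by
    intro i
    refine card_biUnion_le.trans ?_
    have hc' : (L ×ˢ (univ \ insert c L)).card = L.card * (Fintype.card V - 1 - L.card) := by
      rw [card_product, card_sdiff_of_subset (subset_univ _), card_insert_of_notMem hc, card_univ]
      congr 1
      omega
    rw [← hc', ← smul_eq_mul, ← sum_const]
    refine sum_le_sum fun p _ => ?_
    refine (card_union_le _ _).trans ?_
    have a1 := val3 (V := V) i p.2 c p.1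
    have a2 := val3 (V := V) i p.1 c p.2
    omega
  calc _ ≤ ∑ _i : Fin (m + 3), (L.card * (Fintype.card V - 1 - L.card)) *
        (2 * (Fintype.card V - 3).descFactorial m) := sum_le_sum fun i _ => hinner i
    _ = _ := by
      rw [sum_const, smul_eq_mul, card_univ, Fintype.card_fin]; ring

/-- the colour of a pair -/
noncomputable def sg (G : SimpleGraph V) (x y : V) : ZMod 2 := if G.Adj x y then 1 else 0

omit [Fintype V] in
theorem sg_comm (G : SimpleGraph V) (x y : V) : sg G x y = sg G y x := by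
  unfold sg
  simp only [G.adj_comm]

omit [Fintype V] in
theorem hh_cast (G : SimpleGraph V) (f : Fin (m + 3) ↪ V) :
    (hh G f : ZMod 2) = ∑ i, sg G (f i) (f (i + 1)) := by
  rw [hh, card_filter]
  push_cast
  rfl

omit [Fintype V] in
theorem odd_iff (G : SimpleGraph V) (f : Fin (m + 3) ↪ V) :
    Odd (hh G f) ↔ ∑ i, sg G (f i) (f (i + 1)) = 1 := by
  rw [← hh_cast, ZMod.natCast_eq_one_iff_odd]

theorem z2 (a : ZMod 2) : a = 0 ∨ a = 1 := by
  revert a; decide

/-- the difference when the vertex at place `1` is replaced by `y` -/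
noncomputable def df (G : SimpleGraph V) (a x b y : V) : ZMod 2 :=
  sg G a x + sg G x b + sg G a y + sg G y b

/-- pairs (sequence, new vertex) for which the replacement changes the parity -/
noncomputable def PP (m : ℕ) (G : SimpleGraph V) : Finset ((Fin (m + 3) ↪ V) × V) :=
  univ.filter fun p => (∀ i, p.1 i ≠ p.2) ∧ df G (p.1 0) (p.1 1) (p.1 (1 + 1)) p.2 = 1

/-- the replacement -/
noncomputable def rep (p : (Fin (m + 3) ↪ V) × V) : (Fin (m + 3) ↪ V) × V :=
  (p.1.trans (Equiv.swap (p.1 1) p.2).toEmbedding, p.1 1)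

omit [Fintype V] in
theorem rep_rep (p : (Fin (m + 3) ↪ V) × V) : rep (rep p) = p := by
  have h1 : (rep p).1 1 = p.2 := by
    simp [rep]
  apply Prod.ext
  · apply Function.Embedding.ext
    intro i
    change Equiv.swap ((rep p).1 1) (rep p).2 (Equiv.swap (p.1 1) p.2 (p.1 i)) = p.1 i
    rw [h1]
    change Equiv.swap p.2 (p.1 1) (Equiv.swap (p.1 1) p.2 (p.1 i)) = p.1 i
    rw [Equiv.swap_comm p.2 (p.1 1), Equiv.swap_apply_self]
  · exact h1

omit [Fintype V] in
theorem rep_val {p : (Fin (m + 3) ↪ V) × V} (hp : ∀ i, p.1 i ≠ p.2) (i : Fin (m + 3)) :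
    (rep p).1 i = if i = 1 then p.2 else p.1 i := by
  change Equiv.swap (p.1 1) p.2 (p.1 i) = _
  split_ifs with h
  · rw [h]; exact Equiv.swap_apply_left _ _
  · apply Equiv.swap_apply_of_ne_of_ne
    · exact fun h' => h (p.1.injective h')
    · exact hp i

theorem fin_facts : (0 : Fin (m + 3)) ≠ 1 ∧ (1 + 1 : Fin (m + 3)) ≠ 1 ∧ (0 : Fin (m + 3)) + 1 = 1 ∧
    (1 : Fin (m + 3)) + 1 = 1 + 1 ∧ (0 : Fin (m + 3)) ≠ 1 + 1 := by
  refine ⟨?_, (ne1 1).symm, zero_add _, rfl, ?_⟩
  · have := ne1 (0 : Fin (m + 3))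
    rwa [zero_add] at this
  · have := ne3 (0 : Fin (m + 3))
    rwa [zero_add] at this

theorem rep_sum (G : SimpleGraph V) {p : (Fin (m + 3) ↪ V) × V} (hp : ∀ i, p.1 i ≠ p.2) :
    ∑ i, sg G ((rep p).1 i) ((rep p).1 (i + 1)) =
      ∑ i, sg G (p.1 i) (p.1 (i + 1)) + df G (p.1 0) (p.1 1) (p.1 (1 + 1)) p.2 := by
  obtain ⟨f0, f1, f2, f3, f4⟩ := fin_facts (m := m)
  have h := sum_eq_add (s := (univ : Finset (Fin (m + 3))))
    (f := fun i => sg G ((rep p).1 i) ((rep p).1 (i + 1)) + sg G (p.1 i) (p.1 (i + 1)))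
    0 1 f0 (by
      intro i _ hi
      rw [rep_val hp, rep_val hp, if_neg hi.2, if_neg]
      · exact CharTwo.add_self_eq_zero _
      · intro h
        apply hi.1
        have : i + 1 = 0 + 1 := by rw [h, f2]
        exact add_right_cancel this) (by simp) (by simp)
  rw [sum_add_distrib] at h
  simp only [rep_val hp, f2, if_neg f0, if_neg f1, if_true] at h
  simp only [rep_val hp]
  unfold df
  set A := ∑ i, sg G (if i = 1 then p.2 else p.1 i) (if i + 1 = 1 then p.2 else p.1 (i + 1))
  set B := ∑ i, sg G (p.1 i) (p.1 (i + 1))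
  have h2 : A = A + B + B := by rw [add_assoc, CharTwo.add_self_eq_zero, add_zero]
  rw [h2, h]
  ring

theorem PP_le (G : SimpleGraph V) : (PP m G).card ≤ 2 * (Fintype.card V * fk m G) := by
  set T := (univ.filter fun f : Fin (m + 3) ↪ V => Odd (hh G f)) ×ˢ (univ : Finset V) with hT
  have hTc : T.card = Fintype.card V * fk m G := by
    rw [hT, card_product, card_univ, fk, mul_comm]
  have h1 : ((PP m G).filter fun p => Odd (hh G p.1)).card ≤ T.card := by
    apply card_le_card
    intro p hp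
    rw [mem_filter] at hp
    rw [hT, mem_product]
    exact ⟨mem_filter.2 ⟨mem_univ _, hp.2⟩, mem_univ _⟩
  have h2 : ((PP m G).filter fun p => ¬ Odd (hh G p.1)).card ≤ T.card := by
    apply card_le_card_of_injOn rep
    · intro p hp
      have hp' := mem_filter.1 (mem_coe.1 hp)
      have hpp := (mem_filter.1 hp'.1).2
      rw [hT, mem_coe, mem_product]
      refine ⟨mem_filter.2 ⟨mem_univ _, ?_⟩, mem_univ _⟩
      rw [odd_iff, rep_sum G hpp.1, hpp.2]
      have : ∑ i, sg G (p.1 i) (p.1 (i + 1)) = 0 := by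
        rcases z2 (∑ i, sg G (p.1 i) (p.1 (i + 1))) with h | h
        · exact h
        · exact absurd ((odd_iff G p.1).2 h) hp'.2
      rw [this, zero_add]
    · intro p _ q _ h
      rw [← rep_rep p, h, rep_rep]
  have h3 := card_filter_add_card_filter_not (s := PP m G) (fun p => Odd (hh G p.1))
  omega

/-- quadruples of different vertices with an odd 4-cycle -/
noncomputable def Bad (G : SimpleGraph V) : Finset ((V × V) × (V × V)) :=
  univ.filter fun q => q.1.1 ≠ q.1.2 ∧ (q.2.1 ≠ q.1.1 ∧ q.2.1 ≠ q.1.2) ∧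
    (q.2.2 ≠ q.1.1 ∧ q.2.2 ≠ q.1.2) ∧ q.2.1 ≠ q.2.2 ∧ df G q.1.1 q.2.1 q.1.2 q.2.2 = 1

theorem Bad_le (G : SimpleGraph V) :
    (Bad G).card * (Fintype.card V - 4).descFactorial m ≤ (PP m G).card := by
  obtain ⟨f0, f1, f2, f3, f4⟩ := fin_facts (m := m)
  rw [card_eq_sum_card_fiberwise (s := PP m G) (t := Bad G)
    (f := fun p => ((p.1 0, p.1 (1 + 1)), (p.1 1, p.2)))]
  · rw [← smul_eq_mul, ← sum_const]
    refine sum_le_sum fun q hq => ?_
    obtain ⟨-, q1, ⟨q2, q3⟩, ⟨q4, q5⟩, q6, q7⟩ := mem_filter.1 hq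
    set Z : Finset V := {q.1.1, q.1.2, q.2.1, q.2.2} with hZ
    have hZc : Z.card = 4 := by
      rw [hZ, card_insert_of_notMem, card_insert_of_notMem, card_pair q6]
      · simp only [mem_insert, mem_singleton, not_or]; exact ⟨q3.symm, q5.symm⟩
      · simp only [mem_insert, mem_singleton, not_or]; exact ⟨q1, q2.symm, q4.symm⟩
    set w : Fin (m + 3) → V := fun i => if i = 0 then q.1.1 else if i = 1 then q.2.1 else q.1.2
      with hw
    have w0 : w 0 = q.1.1 := by simp [hw]
    have w1 : w 1 = q.2.1 := by simp [hw, f0.symm]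
    have w2 : w (1 + 1) = q.1.2 := by simp only [hw, if_neg f1, if_neg f4.symm]
    have hI : ({0, 1, 1 + 1} : Finset (Fin (m + 3))).card = 3 :=
      card_eq_three.2 ⟨_, _, _, f0, f4, f1.symm, rfl⟩
    have hinj : Set.InjOn w (({0, 1, 1 + 1} : Finset (Fin (m + 3))) : Set (Fin (m + 3))) := by
      intro a ha b hb hab
      simp only [coe_insert, coe_singleton, Set.mem_insert_iff, Set.mem_singleton_iff] at ha hb
      rcases ha with rfl | rfl | rfl <;> rcases hb with rfl | rfl | rfl
      · rfl
      · rw [w0, w1] at hab; exact absurd hab.symm q2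
      · rw [w0, w2] at hab; exact absurd hab q1
      · rw [w0, w1] at hab; exact absurd hab q2
      · rfl
      · rw [w1, w2] at hab; exact absurd hab q3
      · rw [w0, w2] at hab; exact absurd hab.symm q1
      · rw [w1, w2] at hab; exact absurd hab.symm q3
      · rfl
    have hmem : ∀ i ∈ ({0, 1, 1 + 1} : Finset (Fin (m + 3))), w i ∈ Z := by
      intro i hi
      simp only [mem_insert, mem_singleton] at hi
      rcases hi with rfl | rfl | rfl
      · rw [w0, hZ]; simp
      · rw [w1, hZ]; simp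
      · rw [w2, hZ]; simp
    have hpc := pre_card ({0, 1, 1 + 1} : Finset (Fin (m + 3))) w hinj Z hmem
    rw [hI, hZc, Fintype.card_fin, show m + 3 - 3 = m by omega] at hpc
    rw [← hpc]
    apply card_le_card_of_injOn (fun f => (f, q.2.2))
    · intro f hf
      have hf' := mem_pre.1 (mem_coe.1 hf)
      have g0 : f 0 = q.1.1 := by rw [hf'.1 0 (by simp), w0]
      have g1 : f 1 = q.2.1 := by rw [hf'.1 1 (by simp), w1]
      have g2 : f (1 + 1) = q.1.2 := by rw [hf'.1 (1 + 1) (by simp), w2]
      rw [mem_coe, mem_filter]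
      constructor
      · rw [PP, mem_filter]
        refine ⟨mem_univ _, ?_, ?_⟩
        · intro i hi
          simp only at hi
          by_cases h : i ∈ ({0, 1, 1 + 1} : Finset (Fin (m + 3)))
          · simp only [mem_insert, mem_singleton] at h
            rcases h with rfl | rfl | rfl
            · rw [g0] at hi; exact q4 hi.symm
            · rw [g1] at hi; exact q6 hi
            · rw [g2] at hi; exact q5 hi.symm
          · apply hf'.2 i h
            rw [hi, hZ]; simp
        · simp only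
          rw [g0, g1, g2]; exact q7
      · simp only
        rw [g0, g1, g2]
    · intro f _ g _ h
      exact congrArg Prod.fst h
  · intro p hp
    have hp' := (mem_filter.1 (mem_coe.1 hp)).2
    rw [mem_coe, Bad, mem_filter]
    refine ⟨mem_univ _, ?_, ⟨?_, ?_⟩, ⟨?_, ?_⟩, ?_, hp'.2⟩
    · exact fun h => f4 (p.1.injective h)
    · exact fun h => f0 (p.1.injective h).symm
    · exact fun h => f1 (p.1.injective h).symm
    · exact fun h => hp'.1 0 h.symm
    · exact fun h => hp'.1 (1 + 1) h.symm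
    · exact hp'.1 1

/-- where `a` and `b` disagree -/
noncomputable def Dis (G : SimpleGraph V) (e : ZMod 2) (a b : V) : Finset V :=
  univ.filter fun x => x ≠ a ∧ x ≠ b ∧ sg G a x + sg G b x = e

theorem Dis_add (G : SimpleGraph V) {a b : V} (hab : a ≠ b) :
    (Dis G 0 a b).card + (Dis G 1 a b).card + 2 = Fintype.card V := by
  have h1 : Dis G 0 a b ∪ Dis G 1 a b = univ \ {a, b} := by
    ext x
    simp only [Dis, mem_union, mem_filter, mem_univ, true_and, mem_sdiff, mem_insert,
      mem_singleton, not_or]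
    constructor
    · rintro (⟨h1, h2, -⟩ | ⟨h1, h2, -⟩) <;> exact ⟨h1, h2⟩
    · rintro ⟨h1, h2⟩
      rcases z2 (sg G a x + sg G b x) with h | h
      · exact Or.inl ⟨h1, h2, h⟩
      · exact Or.inr ⟨h1, h2, h⟩
  have h2 : Disjoint (Dis G 0 a b) (Dis G 1 a b) := by
    rw [disjoint_left]
    intro x hx hx'
    have e1 := (mem_filter.1 hx).2.2.2
    have e2 := (mem_filter.1 hx').2.2.2
    rw [e1] at e2
    exact absurd e2 (by decide)
  have h3 := card_union_of_disjoint h2
  rw [h1, card_sdiff_of_subset (subset_univ _), card_pair hab, card_univ] at h3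
  have h4 : 2 ≤ Fintype.card V := by
    rw [← card_pair hab]; exact card_le_univ _
  omega

/-- imperfect pairs -/
noncomputable def Imp (G : SimpleGraph V) : Finset (V × V) :=
  univ.filter fun p => p.1 ≠ p.2 ∧ (Dis G 0 p.1 p.2).Nonempty ∧ (Dis G 1 p.1 p.2).Nonempty

theorem Imp_le (G : SimpleGraph V) : (Imp G).card * (Fintype.card V - 3) ≤ (Bad G).card := by
  refine le_trans ?_ (card_le_card (filter_subset (fun q => q.1 ∈ Imp G) (Bad G)))
  rw [card_eq_sum_card_fiberwise (s := (Bad G).filter fun q => q.1 ∈ Imp G) (t := Imp G)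
    (f := fun q => q.1)]
  · rw [← smul_eq_mul, ← sum_const]
    refine sum_le_sum fun p hp => ?_
    have hp' := (mem_filter.1 hp).2
    have hadd := Dis_add G hp'.1
    have c0 := card_pos.2 hp'.2.1
    have c1 := card_pos.2 hp'.2.2
    have hprod : Fintype.card V - 3 ≤ (Dis G 1 p.1 p.2 ×ˢ Dis G 0 p.1 p.2).card := by
      rw [card_product]
      obtain ⟨x, hx⟩ : ∃ x, (Dis G 0 p.1 p.2).card = x + 1 := ⟨_, (Nat.sub_add_cancel c0).symm⟩
      obtain ⟨y, hy⟩ : ∃ y, (Dis G 1 p.1 p.2).card = y + 1 := ⟨_, (Nat.sub_add_cancel c1).symm⟩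
      rw [hx, hy] at hadd ⊢
      have : (y + 1) * (x + 1) = y * x + x + y + 1 := by ring
      have h0 : 0 ≤ y * x := Nat.zero_le _
      omega
    refine hprod.trans ?_
    apply card_le_card_of_injOn (fun z => (p, z))
    · intro z hz
      have hz' := mem_product.1 (mem_coe.1 hz)
      obtain ⟨-, a1, a2, a3⟩ := mem_filter.1 hz'.1
      obtain ⟨-, b1, b2, b3⟩ := mem_filter.1 hz'.2
      rw [mem_coe, mem_filter, mem_filter]
      refine ⟨⟨mem_filter.2 ⟨mem_univ _, hp'.1, ⟨a1, a2⟩, ⟨b1, b2⟩, ?_, ?_⟩, hp⟩, rfl⟩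
      · intro h
        simp only at h
        rw [h] at a3
        rw [a3] at b3
        exact absurd b3 (by decide)
      · unfold df
        simp only
        rw [sg_comm G z.1 p.2, sg_comm G z.2 p.2, a3, add_assoc, b3, add_zero]
    · intro z _ z' _ h
      exact congrArg Prod.snd h
  · intro q hq
    exact (mem_filter.1 (mem_coe.1 hq)).2

/-- the imperfect partners of `v` -/
noncomputable def Ipart (G : SimpleGraph V) (v : V) : Finset V :=
  univ.filter fun w => (v, w) ∈ Imp G

theorem exists_good (G : SimpleGraph V) [Nonempty V] :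
    ∃ v, Fintype.card V * (Ipart G v).card ≤ (Imp G).card := by
  obtain ⟨v, -, hv⟩ := exists_min_image (univ : Finset V) (fun v => (Ipart G v).card)
    univ_nonempty
  refine ⟨v, ?_⟩
  have h : (Imp G).card = ∑ w : V, (Ipart G w).card := by
    rw [card_eq_sum_card_fiberwise (s := Imp G) (t := univ) (f := fun p => p.1)
      (fun _ _ => mem_coe.2 (mem_univ _))]
    refine sum_congr rfl fun w _ => ?_
    apply card_bij (fun p _ => p.2)
    · intro p hp
      obtain ⟨h1, h2⟩ := mem_filter.1 hp
      rw [Ipart, mem_filter]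
      refine ⟨mem_univ _, ?_⟩
      rw [← h2]; exact h1
    · intro p hp q hq h
      exact Prod.ext ((mem_filter.1 hp).2.trans (mem_filter.1 hq).2.symm) h
    · intro x hx
      exact ⟨(w, x), mem_filter.2 ⟨(mem_filter.1 hx).2, rfl⟩, rfl⟩
  rw [h, ← card_univ, ← smul_eq_mul, ← sum_const]
  exact sum_le_sum fun w hw => hv w hw

/-- few frustrated sequences give a vertex with few imperfect partners -/
theorem few_imperfect (G : SimpleGraph V) {n : ℕ} (hn : Fintype.card V = n) (h3 : m + 4 ≤ n)
    {B : ℕ} (hB : fk m G ≤ (n - 3).descFactorial m * B) :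
    ∃ v, (n - 3 - m) * (Ipart G v).card ≤ 2 * B := by
  have : Nonempty V := Fintype.card_pos_iff.1 (by omega)
  obtain ⟨v, hv⟩ := exists_good G
  refine ⟨v, ?_⟩
  have a1 := Imp_le G
  have a2 := Bad_le (m := m) G
  have a3 := PP_le (m := m) G
  rw [hn] at hv a1 a2 a3
  have key : (n - 3) * (n - 4).descFactorial m = (n - 3 - m) * (n - 3).descFactorial m := by
    rw [← Nat.descFactorial_succ]
    obtain ⟨l, hl⟩ : ∃ l, n - 3 = l + 1 := ⟨n - 4, by omega⟩
    rw [hl, Nat.succ_descFactorial_succ, show n - 4 = l by omega]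
  have hpos : 0 < n * (n - 3).descFactorial m := by
    apply Nat.mul_pos (by omega)
    rw [Nat.descFactorial_pos]
    omega
  have : (n * (n - 3).descFactorial m) * ((n - 3 - m) * (Ipart G v).card) ≤
      (n * (n - 3).descFactorial m) * (2 * B) := by
    calc (n * (n - 3).descFactorial m) * ((n - 3 - m) * (Ipart G v).card)
        = (n * (Ipart G v).card) * ((n - 3 - m) * (n - 3).descFactorial m) := by ring
      _ = (n * (Ipart G v).card) * ((n - 3) * (n - 4).descFactorial m) := by rw [key]
      _ ≤ (Imp G).card * ((n - 3) * (n - 4).descFactorial m) := Nat.mul_le_mul_right _ hv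
      _ = (Imp G).card * (n - 3) * (n - 4).descFactorial m := by ring
      _ ≤ (Bad G).card * (n - 4).descFactorial m := Nat.mul_le_mul_right _ a1
      _ ≤ (PP m G).card := a2
      _ ≤ 2 * (n * fk m G) := a3
      _ ≤ 2 * (n * ((n - 3).descFactorial m * B)) := by
        apply Nat.mul_le_mul_left
        exact Nat.mul_le_mul_left _ hB
      _ = _ := by ring
  exact Nat.le_of_mul_le_mul_left this hpos

end Pool.Agent.Q265.FC
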